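import Mathlib
import Pool.Agent.H530Z.LevyDefs
import Pool.Agent.H530Z.LevyI

set_option autoImplicit false

namespace Pool.Agent.Results.MP_9152e2_an.ATypeIII

open MeasureTheory Pool.Agent.H530Z.Levy

/-- Some Levy group admits a spatial ergodic nonsingular action of Type III. -/
theorem result : ∃ (G : Type) (_ : Group G) (_ : TopologicalSpace G) (_ : IsTopologicalGroup G)
    (_ : PolishSpace G) (_ : MeasurableSpace G) (_ : BorelSpace G), IsLevyGroup G ∧
    ∃ (X : Type) (_ : MeasurableSpace X) (_ : StandardBorelSpace X) (_ : MulAction G X)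
      (μ : Measure X), IsTypeIII G X μ :=
  mainIII

end Pool.Agent.Results.MP_9152e2_an.ATypeIII
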